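import Mathlib

/-!
# MP_71be7b_lc: the number of isomorphism classes of `k`-generated projective algebras

For every `k ≥ 1` there are exactly `2 ^ ℵ₀` isomorphism classes of projective algebras generated
by `k` subsets of the plane.

Lower bound: for `A ⊆ ℕ` let `S_A` be the set of the `(x, y)` with `x ≠ 0` and
`⌊|x|⌋ ≤ ⌊|y|⌋`, or with `x = 0` and `⌊|y|⌋ ∈ A`.  The sets `{(0, y) : ⌊|y|⌋ = n}` are definable by
terms, hence `A` is determined by the isomorphism type of the algebra together with its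
generator `S_A`; as generated algebras are countable, each isomorphism class contains the algebras
of only countably many `A`.
-/

set_option autoImplicit false

namespace Pool.Agent.Results.MP_71be7b_lc.ContinuumManyTypes

/-- The Euclidean plane. -/
abbrev Plane : Type := ℝ × ℝ

/-- The first axis `ℝ × {0}`. -/
def X : Set Plane := {p | p.2 = 0}

/-- The second axis `{0} × ℝ`. -/
def Y : Set Plane := {p | p.1 = 0}

/-- The projection onto the first axis. -/
def pr1 (S : Set Plane) : Set Plane := {p | p.2 = 0 ∧ ∃ y, (p.1, y) ∈ S}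

/-- The projection onto the second axis. -/
def pr2 (S : Set Plane) : Set Plane := {p | p.1 = 0 ∧ ∃ x, (x, p.2) ∈ S}

/-- `A ⊗ B` (used for `A ⊆ X` and `B ⊆ Y`). -/
def tensor (A B : Set Plane) : Set Plane := {p | (p.1, 0) ∈ A ∧ (0, p.2) ∈ B}

/-- Projective algebras of plane sets. -/
structure IsProjAlg (F : Set (Set Plane)) : Prop where
  compl : ∀ S ∈ F, Sᶜ ∈ F
  union : ∀ S ∈ F, ∀ T ∈ F, S ∪ T ∈ F
  pr1 : ∀ S ∈ F, pr1 S ∈ F
  pr2 : ∀ S ∈ F, pr2 S ∈ F
  tensor : ∀ A ∈ F, ∀ B ∈ F, A ⊆ X → B ⊆ Y → tensor A B ∈ F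

/-- The projective algebra generated by `S 0, ..., S (k-1)`. -/
def gen {k : ℕ} (S : Fin k → Set Plane) : Set (Set Plane) :=
  ⋂₀ {F | IsProjAlg F ∧ ∀ i, S i ∈ F}

/-- `φ` is an isomorphism from `F` onto `G`. -/
structure IsIso (F G : Set (Set Plane)) (φ : Set Plane → Set Plane) : Prop where
  bij : Set.BijOn φ F G
  compl : ∀ S ∈ F, φ Sᶜ = (φ S)ᶜ
  union : ∀ S ∈ F, ∀ T ∈ F, φ (S ∪ T) = φ S ∪ φ T
  pr1 : ∀ S ∈ F, φ (pr1 S) = pr1 (φ S)
  pr2 : ∀ S ∈ F, φ (pr2 S) = pr2 (φ S)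
  tensor : ∀ A ∈ F, ∀ B ∈ F, A ⊆ X → B ⊆ Y → φ (tensor A B) = tensor (φ A) (φ B)

/-- The projective algebras generated by `k` sets. -/
def Generated (k : ℕ) : Type := {F : Set (Set Plane) // ∃ S : Fin k → Set Plane, F = gen S}

/-- The isomorphism classes of the projective algebras generated by `k` sets. -/
def Classes (k : ℕ) : Type :=
  Quot fun F G : Generated k => ∃ φ : Set Plane → Set Plane, IsIso F.1 G.1 φ

/-! ## Terms -/

/-- Terms. -/
inductive Tm (k : ℕ) : Type where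
  | var (i : Fin k) : Tm k
  | compl (t : Tm k) : Tm k
  | union (t s : Tm k) : Tm k
  | pr1 (t : Tm k) : Tm k
  | pr2 (t : Tm k) : Tm k
  | tensor (t s : Tm k) : Tm k

/-- A code of a term. -/
def enc {k : ℕ} : Tm k → ℕ
  | .var i => Nat.pair 0 i
  | .compl t => Nat.pair 1 (enc t)
  | .union t s => Nat.pair 2 (Nat.pair (enc t) (enc s))
  | .pr1 t => Nat.pair 3 (enc t)
  | .pr2 t => Nat.pair 4 (enc t)
  | .tensor t s => Nat.pair 5 (Nat.pair (enc t) (enc s))

theorem enc_inj {k : ℕ} : ∀ t s : Tm k, enc t = enc s → t = s := by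
  intro t
  induction t with
  | var i => intro s h; cases s <;> simp_all [enc, Nat.pair_eq_pair, Fin.ext_iff]
  | compl t ih =>
    intro s h
    cases s <;> simp only [enc, Nat.pair_eq_pair] at h <;> first | omega | skip
    rw [ih _ h.2]
  | union t s ih1 ih2 =>
    intro s h
    cases s <;> simp only [enc, Nat.pair_eq_pair] at h <;> first | omega | skip
    rw [ih1 _ h.2.1, ih2 _ h.2.2]
  | pr1 t ih =>
    intro s h
    cases s <;> simp only [enc, Nat.pair_eq_pair] at h <;> first | omega | skip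
    rw [ih _ h.2]
  | pr2 t ih =>
    intro s h
    cases s <;> simp only [enc, Nat.pair_eq_pair] at h <;> first | omega | skip
    rw [ih _ h.2]
  | tensor t s ih1 ih2 =>
    intro s h
    cases s <;> simp only [enc, Nat.pair_eq_pair] at h <;> first | omega | skip
    rw [ih1 _ h.2.1, ih2 _ h.2.2]

theorem enc_injective {k : ℕ} : Function.Injective (enc (k := k)) := fun t s h => enc_inj t s h

instance {k : ℕ} : Countable (Tm k) := enc_injective.countable

/-- The value of a term. -/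
def ev {k : ℕ} (S : Fin k → Set Plane) : Tm k → Set Plane
  | .var i => S i
  | .compl t => (ev S t)ᶜ
  | .union t s => ev S t ∪ ev S s
  | .pr1 t => pr1 (ev S t)
  | .pr2 t => pr2 (ev S t)
  | .tensor t s => tensor (ev S t) (ev S s)

theorem inter_eq (S T : Set Plane) : S ∩ T = (Sᶜ ∪ Tᶜ)ᶜ := by
  rw [Set.compl_union, compl_compl, compl_compl]

theorem X_eq : X = pr1 Set.univ := by
  ext p; simp [X, pr1]

theorem Y_eq : Y = pr2 Set.univ := by
  ext p; simp [Y, pr2]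

theorem tensor_eq (A B : Set Plane) : tensor A B = tensor (A ∩ X) (B ∩ Y) := by
  ext p; simp [tensor, X, Y]

section closure
variable {F : Set (Set Plane)}

theorem IsProjAlg.inter (h : IsProjAlg F) {S T : Set Plane} (hS : S ∈ F) (hT : T ∈ F) :
    S ∩ T ∈ F := by
  rw [inter_eq]
  exact h.compl _ (h.union _ (h.compl _ hS) _ (h.compl _ hT))

theorem IsProjAlg.univ_mem (h : IsProjAlg F) {S : Set Plane} (hS : S ∈ F) : Set.univ ∈ F := by
  rw [← Set.union_compl_self S]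
  exact h.union _ hS _ (h.compl _ hS)

theorem IsProjAlg.X_mem (h : IsProjAlg F) {S : Set Plane} (hS : S ∈ F) : X ∈ F := by
  rw [X_eq]
  exact h.pr1 _ (h.univ_mem hS)

theorem IsProjAlg.Y_mem (h : IsProjAlg F) {S : Set Plane} (hS : S ∈ F) : Y ∈ F := by
  rw [Y_eq]
  exact h.pr2 _ (h.univ_mem hS)

theorem IsProjAlg.tensor' (h : IsProjAlg F) {A B : Set Plane} (hA : A ∈ F) (hB : B ∈ F) :
    Pool.Agent.Results.MP_71be7b_lc.ContinuumManyTypes.tensor A B ∈ F := by
  rw [tensor_eq]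
  exact h.tensor _ (h.inter hA (h.X_mem hA)) _ (h.inter hB (h.Y_mem hB)) Set.inter_subset_right
    Set.inter_subset_right

theorem IsProjAlg.ev_mem (h : IsProjAlg F) {k : ℕ} {S : Fin k → Set Plane} (hS : ∀ i, S i ∈ F)
    (t : Tm k) : ev S t ∈ F := by
  induction t with
  | var i => exact hS i
  | compl t ih => exact h.compl _ ih
  | union t s ih1 ih2 => exact h.union _ ih1 _ ih2
  | pr1 t ih => exact h.pr1 _ ih
  | pr2 t ih => exact h.pr2 _ ih
  | tensor t s ih1 ih2 => exact h.tensor' ih1 ih2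

end closure

theorem range_alg {k : ℕ} (S : Fin k → Set Plane) : IsProjAlg (Set.range (ev S)) where
  compl := by rintro _ ⟨t, rfl⟩; exact ⟨.compl t, rfl⟩
  union := by rintro _ ⟨t, rfl⟩ _ ⟨s, rfl⟩; exact ⟨.union t s, rfl⟩
  pr1 := by rintro _ ⟨t, rfl⟩; exact ⟨.pr1 t, rfl⟩
  pr2 := by rintro _ ⟨t, rfl⟩; exact ⟨.pr2 t, rfl⟩
  tensor := by rintro _ ⟨t, rfl⟩ _ ⟨s, rfl⟩ _ _; exact ⟨.tensor t s, rfl⟩

theorem gen_eq {k : ℕ} (S : Fin k → Set Plane) : gen S = Set.range (ev S) := by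
  apply Set.Subset.antisymm
  · intro T hT
    exact hT _ ⟨range_alg S, fun i => ⟨.var i, rfl⟩⟩
  · rintro _ ⟨t, rfl⟩ F ⟨h1, h2⟩
    exact h1.ev_mem h2 t

/-! ## Isomorphisms -/

theorem IsIso.refl (F : Set (Set Plane)) : IsIso F F id where
  bij := Set.bijOn_id F
  compl _ _ := rfl
  union _ _ _ _ := rfl
  pr1 _ _ := rfl
  pr2 _ _ := rfl
  tensor _ _ _ _ _ _ := rfl

section iso
variable {F G H : Set (Set Plane)} {φ ψ : Set Plane → Set Plane}

theorem IsIso.map_inter (h : IsIso F G φ) (hF : IsProjAlg F) {S T : Set Plane} (hS : S ∈ F)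
    (hT : T ∈ F) : φ (S ∩ T) = φ S ∩ φ T := by
  rw [inter_eq, inter_eq, h.compl _ (hF.union _ (hF.compl _ hS) _ (hF.compl _ hT)),
    h.union _ (hF.compl _ hS) _ (hF.compl _ hT), h.compl _ hS, h.compl _ hT]

theorem IsIso.map_univ (h : IsIso F G φ) (hF : IsProjAlg F) {S : Set Plane} (hS : S ∈ F) :
    φ Set.univ = Set.univ := by
  rw [← Set.union_compl_self S, h.union _ hS _ (hF.compl _ hS), h.compl _ hS,
    Set.union_compl_self, Set.union_compl_self]

theorem IsIso.map_empty (h : IsIso F G φ) (hF : IsProjAlg F) {S : Set Plane} (hS : S ∈ F) :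
    φ ∅ = ∅ := by
  rw [← Set.compl_univ, h.compl _ (hF.univ_mem hS), h.map_univ hF hS]

theorem IsIso.map_X (h : IsIso F G φ) (hF : IsProjAlg F) {S : Set Plane} (hS : S ∈ F) :
    φ X = X := by
  rw [X_eq, h.pr1 _ (hF.univ_mem hS), h.map_univ hF hS]

theorem IsIso.map_Y (h : IsIso F G φ) (hF : IsProjAlg F) {S : Set Plane} (hS : S ∈ F) :
    φ Y = Y := by
  rw [Y_eq, h.pr2 _ (hF.univ_mem hS), h.map_univ hF hS]

theorem IsIso.tensor' (h : IsIso F G φ) (hF : IsProjAlg F) {A B : Set Plane} (hA : A ∈ F)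
    (hB : B ∈ F) : φ (ContinuumManyTypes.tensor A B) = ContinuumManyTypes.tensor (φ A) (φ B) := by
  rw [tensor_eq, h.tensor _ (hF.inter hA (hF.X_mem hA)) _ (hF.inter hB (hF.Y_mem hB))
    Set.inter_subset_right Set.inter_subset_right, h.map_inter hF hA (hF.X_mem hA),
    h.map_inter hF hB (hF.Y_mem hB), h.map_X hF hA, h.map_Y hF hB, ← tensor_eq]

theorem IsIso.map_ev (h : IsIso F G φ) (hF : IsProjAlg F) {k : ℕ} {S : Fin k → Set Plane}
    (hS : ∀ i, S i ∈ F) (t : Tm k) : φ (ev S t) = ev (fun i => φ (S i)) t := by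
  induction t with
  | var i => rfl
  | compl t ih => simp only [ev]; rw [h.compl _ (hF.ev_mem hS t), ih]
  | union t s ih1 ih2 =>
    simp only [ev]; rw [h.union _ (hF.ev_mem hS t) _ (hF.ev_mem hS s), ih1, ih2]
  | pr1 t ih => simp only [ev]; rw [h.pr1 _ (hF.ev_mem hS t), ih]
  | pr2 t ih => simp only [ev]; rw [h.pr2 _ (hF.ev_mem hS t), ih]
  | tensor t s ih1 ih2 =>
    simp only [ev]; rw [h.tensor' hF (hF.ev_mem hS t) (hF.ev_mem hS s), ih1, ih2]

theorem IsIso.trans (h : IsIso F G φ) (hF : IsProjAlg F) (h' : IsIso G H ψ) :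
    IsIso F H (ψ ∘ φ) where
  bij := h'.bij.comp h.bij
  compl S hS := by
    simp only [Function.comp]; rw [h.compl S hS, h'.compl _ (h.bij.mapsTo hS)]
  union S hS T hT := by
    simp only [Function.comp]
    rw [h.union S hS T hT, h'.union _ (h.bij.mapsTo hS) _ (h.bij.mapsTo hT)]
  pr1 S hS := by
    simp only [Function.comp]; rw [h.pr1 S hS, h'.pr1 _ (h.bij.mapsTo hS)]
  pr2 S hS := by
    simp only [Function.comp]; rw [h.pr2 S hS, h'.pr2 _ (h.bij.mapsTo hS)]
  tensor A hA B hB hAX hBY := by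
    simp only [Function.comp]
    rw [h.tensor A hA B hB hAX hBY]
    refine h'.tensor _ (h.bij.mapsTo hA) _ (h.bij.mapsTo hB) ?_ ?_
    · have h1 : A ∩ X = A := Set.inter_eq_left.2 hAX
      rw [← h1, h.map_inter hF hA (hF.X_mem hA), h.map_X hF hA]
      exact Set.inter_subset_right
    · have h1 : B ∩ Y = B := Set.inter_eq_left.2 hBY
      rw [← h1, h.map_inter hF hB (hF.Y_mem hB), h.map_Y hF hB]
      exact Set.inter_subset_right

theorem IsIso.symm (h : IsIso F G φ) (hF : IsProjAlg F) (hG : IsProjAlg G) :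
    IsIso G F (Function.invFunOn φ F) := by
  have hinv : Set.InvOn (Function.invFunOn φ F) φ F G := h.bij.invOn_invFunOn
  have hb : Set.BijOn (Function.invFunOn φ F) G F := h.bij.symm hinv.symm
  have hr : ∀ S ∈ G, φ (Function.invFunOn φ F S) = S := hinv.2
  have key : ∀ S ∈ F, ∀ T ∈ F, φ S = φ T → S = T := fun S hS T hT e => h.bij.injOn hS hT e
  constructor
  · exact hb
  · intro S hS
    refine key _ (hb.mapsTo (hG.compl _ hS)) _ (hF.compl _ (hb.mapsTo hS)) ?_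
    rw [hr _ (hG.compl _ hS), h.compl _ (hb.mapsTo hS), hr _ hS]
  · intro S hS T hT
    refine key _ (hb.mapsTo (hG.union _ hS _ hT)) _
      (hF.union _ (hb.mapsTo hS) _ (hb.mapsTo hT)) ?_
    rw [hr _ (hG.union _ hS _ hT), h.union _ (hb.mapsTo hS) _ (hb.mapsTo hT), hr _ hS, hr _ hT]
  · intro S hS
    refine key _ (hb.mapsTo (hG.pr1 _ hS)) _ (hF.pr1 _ (hb.mapsTo hS)) ?_
    rw [hr _ (hG.pr1 _ hS), h.pr1 _ (hb.mapsTo hS), hr _ hS]
  · intro S hS
    refine key _ (hb.mapsTo (hG.pr2 _ hS)) _ (hF.pr2 _ (hb.mapsTo hS)) ?_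
    rw [hr _ (hG.pr2 _ hS), h.pr2 _ (hb.mapsTo hS), hr _ hS]
  · intro A hA B hB _ _
    refine key _ (hb.mapsTo (hG.tensor' hA hB)) _
      (hF.tensor' (hb.mapsTo hA) (hb.mapsTo hB)) ?_
    rw [hr _ (hG.tensor' hA hB), h.tensor' hF (hb.mapsTo hA) (hb.mapsTo hB), hr _ hA, hr _ hB]

end iso

theorem gen_alg {k : ℕ} (S : Fin k → Set Plane) : IsProjAlg (gen S) := by
  rw [gen_eq]; exact range_alg S

theorem gen_self {k : ℕ} (S : Fin k → Set Plane) (i : Fin k) : S i ∈ gen S := by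
  rw [gen_eq]; exact ⟨.var i, rfl⟩

theorem Generated.alg {k : ℕ} (F : Generated k) : IsProjAlg F.1 := by
  obtain ⟨S, hS⟩ := F.2
  rw [hS]; exact gen_alg S

theorem iso_equivalence (k : ℕ) :
    Equivalence fun F G : Generated k => ∃ φ : Set Plane → Set Plane, IsIso F.1 G.1 φ where
  refl F := ⟨id, IsIso.refl F.1⟩
  symm := by
    rintro F G ⟨φ, h⟩
    exact ⟨_, h.symm F.alg G.alg⟩
  trans := by
    rintro F G H ⟨φ, h⟩ ⟨ψ, h'⟩
    exact ⟨_, h.trans F.alg h'⟩

theorem mk_eq_iff {k : ℕ} (F G : Generated k) :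
    (Quot.mk _ F : Classes k) = Quot.mk _ G ↔ ∃ φ : Set Plane → Set Plane, IsIso F.1 G.1 φ := by
  constructor
  · intro h
    exact (iso_equivalence k).eqvGen_iff.1 (Quot.eqvGen_exact h)
  · intro h
    exact Quot.sound h

/-! ## Upper bound -/

/-- The kernel of the evaluation of terms. -/
def ker {k : ℕ} (S : Fin k → Set Plane) : Set (Tm k × Tm k) := {p | ev S p.1 = ev S p.2}

theorem iso_of_ker {k : ℕ} {S S' : Fin k → Set Plane} (h : ker S = ker S') :
    ∃ φ : Set Plane → Set Plane, IsIso (gen S) (gen S') φ := by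
  classical
  have hker : ∀ t s, ev S t = ev S s ↔ ev S' t = ev S' s := by
    intro t s
    have : (t, s) ∈ ker S ↔ (t, s) ∈ ker S' := by rw [h]
    exact this
  have hex : ∀ A : Set Plane, ∃ B : Set Plane, ∀ t, ev S t = A → B = ev S' t := by
    intro A
    by_cases hA : ∃ t, ev S t = A
    · obtain ⟨t, ht⟩ := hA
      refine ⟨ev S' t, fun s hs => (hker t s).1 (ht.trans hs.symm)⟩
    · exact ⟨∅, fun t ht => absurd ⟨t, ht⟩ hA⟩
  choose φ hφ using hex
  have hφ' : ∀ t, φ (ev S t) = ev S' t := fun t => hφ _ t rfl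
  refine ⟨φ, ⟨⟨?_, ?_, ?_⟩, ?_, ?_, ?_, ?_, ?_⟩⟩
  · rw [gen_eq, gen_eq]
    rintro _ ⟨t, rfl⟩
    exact ⟨t, (hφ' t).symm⟩
  · rw [gen_eq]
    rintro _ ⟨t, rfl⟩ _ ⟨s, rfl⟩ e
    rw [hφ', hφ'] at e
    exact (hker t s).2 e
  · rw [gen_eq, gen_eq]
    rintro _ ⟨t, rfl⟩
    exact ⟨_, ⟨t, rfl⟩, hφ' t⟩
  · rw [gen_eq]
    rintro _ ⟨t, rfl⟩
    rw [hφ' t]; exact hφ' (.compl t)
  · rw [gen_eq]
    rintro _ ⟨t, rfl⟩ _ ⟨s, rfl⟩
    rw [hφ' t, hφ' s]; exact hφ' (.union t s)
  · rw [gen_eq]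
    rintro _ ⟨t, rfl⟩
    rw [hφ' t]; exact hφ' (.pr1 t)
  · rw [gen_eq]
    rintro _ ⟨t, rfl⟩
    rw [hφ' t]; exact hφ' (.pr2 t)
  · rw [gen_eq]
    rintro _ ⟨t, rfl⟩ _ ⟨s, rfl⟩ _ _
    rw [hφ' t, hφ' s]; exact hφ' (.tensor t s)

theorem upper (k : ℕ) : Cardinal.mk (Classes k) ≤ Cardinal.continuum := by
  classical
  have hex : ∀ c : Classes k, ∃ S : Fin k → Set Plane, Quot.mk _ ⟨gen S, S, rfl⟩ = c := by
    intro c
    induction c using Quot.inductionOn with
    | h F =>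
      obtain ⟨F, S, rfl⟩ := F
      exact ⟨S, rfl⟩
  choose S hS using hex
  have hinj : Function.Injective fun c : Classes k => ker (S c) := by
    intro c d hcd
    rw [← hS c, ← hS d]
    exact (mk_eq_iff _ _).2 (iso_of_ker hcd)
  refine (Cardinal.mk_le_of_injective hinj).trans ?_
  rw [Cardinal.mk_set, ← Cardinal.two_power_aleph0]
  exact Cardinal.power_le_power_left two_ne_zero Cardinal.mk_le_aleph0

/-! ## Lower bound -/

/-- The class of a real. -/
noncomputable def cl (x : ℝ) : ℕ := ⌊|x|⌋₊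

theorem cl_surj (n : ℕ) : ∃ x : ℝ, x ≠ 0 ∧ cl x = n := by
  refine ⟨n + 1 / 2, by positivity, ?_⟩
  have h : |(n : ℝ) + 1 / 2| = n + 1 / 2 := abs_of_pos (by positivity)
  rw [cl, h, Nat.floor_eq_iff (by positivity)]
  constructor <;> norm_num

/-- The set `S_A`. -/
def SA (A : Set ℕ) : Set Plane :=
  {p | (p.1 ≠ 0 ∧ cl p.1 ≤ cl p.2) ∨ (p.1 = 0 ∧ cl p.2 ∈ A)}

section terms
variable {k : ℕ} (s : Tm k)

/-- `∩` -/
def tInter (t t' : Tm k) : Tm k := .compl (.union (.compl t) (.compl t'))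
/-- the whole plane -/
def tTop : Tm k := .union s (.compl s)
/-- the first axis -/
def tX : Tm k := .pr1 (tTop s)
/-- the second axis -/
def tY : Tm k := .pr2 (tTop s)
/-- the first axis without the origin -/
def tX0 : Tm k := tInter (tX s) (.compl (tY s))

/-- `{(x, 0) : x ≠ 0, cl x < n + 1}` from `{(0, y) : cl y < n}` -/
def fU (v : Tm k) : Tm k :=
  tInter (tX0 s) (.compl (.pr1 (tInter (.tensor (tX0 s) (tInter (tY s) (.compl v))) (.compl s))))

/-- `{(0, y) : cl y < n + 1}` from `{(x, 0) : x ≠ 0, cl x < n + 1}` -/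
def fV (u : Tm k) : Tm k :=
  tInter (tY s) (.compl (.pr2 (tInter (.tensor (tInter (tX0 s) (.compl u)) (tY s)) s)))

/-- `{(0, y) : cl y < n}` -/
def tV : ℕ → Tm k
  | 0 => .compl (tTop s)
  | n + 1 => fV s (fU s (tV n))

/-- `{(0, y) ∈ S : cl y = n}` -/
def tE (n : ℕ) : Tm k := tInter (tInter (tV s (n + 1)) (.compl (tV s n))) s

end terms

section evaluation
variable {k : ℕ} (S : Fin k → Set Plane) (s : Tm k)

theorem ev_tInter (t t' : Tm k) : ev S (tInter t t') = ev S t ∩ ev S t' := by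
  simp [tInter, ev]

theorem ev_tTop : ev S (tTop s) = Set.univ := by
  simp [tTop, ev]

theorem ev_tX : ev S (tX s) = X := by
  rw [X_eq, tX, ev, ev_tTop]

theorem ev_tY : ev S (tY s) = Y := by
  rw [Y_eq, tY, ev, ev_tTop]

theorem mem_tX0 (p : Plane) : p ∈ ev S (tX0 s) ↔ p.2 = 0 ∧ p.1 ≠ 0 := by
  rw [tX0, ev_tInter, ev, ev_tX, ev_tY]
  exact Iff.rfl

theorem mem_fU {A : Set ℕ} (hs : ev S s = SA A) (v : Tm k) (n : ℕ)
    (hv : ∀ p : Plane, p ∈ ev S v ↔ p.1 = 0 ∧ cl p.2 < n) (p : Plane) :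
    p ∈ ev S (fU s v) ↔ p.2 = 0 ∧ p.1 ≠ 0 ∧ cl p.1 < n + 1 := by
  rw [fU, ev_tInter, Set.mem_inter_iff, mem_tX0]
  simp only [ev, Set.mem_compl_iff, pr1, Set.mem_ofPred_eq, ev_tInter, Set.mem_inter_iff, tensor,
    mem_tX0, hv, ev_tY, Y, hs, SA, true_and]
  constructor
  · rintro ⟨⟨h1, h2⟩, h3⟩
    refine ⟨h1, h2, ?_⟩
    by_contra h4
    obtain ⟨y, -, hy⟩ := cl_surj n
    apply h3
    refine ⟨h1, y, ⟨h2, ?_⟩, ?_⟩
    · rw [hy]; simp
    · rw [hy]
      rintro (h5 | h5)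
      · omega
      · exact h2 h5.1
  · rintro ⟨h1, h2, h3⟩
    refine ⟨⟨h1, h2⟩, ?_⟩
    rintro ⟨-, y, ⟨-, h5⟩, h6⟩
    apply h6
    left
    refine ⟨h2, ?_⟩
    by_contra h7
    apply h5
    omega

theorem mem_fV {A : Set ℕ} (hs : ev S s = SA A) (u : Tm k) (n : ℕ)
    (hu : ∀ p : Plane, p ∈ ev S u ↔ p.2 = 0 ∧ p.1 ≠ 0 ∧ cl p.1 < n) (p : Plane) :
    p ∈ ev S (fV s u) ↔ p.1 = 0 ∧ cl p.2 < n := by
  rw [fV, ev_tInter, Set.mem_inter_iff, ev_tY]
  simp only [ev, Set.mem_compl_iff, pr2, Set.mem_ofPred_eq, ev_tInter, Set.mem_inter_iff, tensor,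
    mem_tX0, hu, ev_tY, Y, hs, SA, true_and]
  constructor
  · rintro ⟨h1, h2⟩
    refine ⟨h1, ?_⟩
    by_contra h4
    obtain ⟨x, hx0, hx⟩ := cl_surj n
    apply h2
    refine ⟨h1, x, ⟨⟨⟨hx0, ?_⟩, trivial⟩, ?_⟩⟩
    · rintro ⟨-, h5⟩
      omega
    · left
      exact ⟨hx0, by omega⟩
  · rintro ⟨h1, h2⟩
    refine ⟨h1, ?_⟩
    rintro ⟨-, x, ⟨⟨h5, h6⟩, -⟩, h7⟩
    rcases h7 with h7 | h7
    · apply h6
      exact ⟨h5, by omega⟩
    · exact h5 h7.1

theorem mem_tV {A : Set ℕ} (hs : ev S s = SA A) (n : ℕ) :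
    ∀ p : Plane, p ∈ ev S (tV s n) ↔ p.1 = 0 ∧ cl p.2 < n := by
  induction n with
  | zero => intro p; simp [tV, ev, ev_tTop]
  | succ n ih => exact mem_fV S s hs _ (n + 1) (mem_fU S s hs _ n ih)

theorem tE_iff {A : Set ℕ} (hs : ev S s = SA A) (n : ℕ) : (ev S (tE s n)).Nonempty ↔ n ∈ A := by
  rw [tE, ev_tInter, ev_tInter]
  constructor
  · rintro ⟨p, ⟨h1, h2⟩, h3⟩
    rw [mem_tV S s hs] at h1
    change p ∉ ev S (tV s n) at h2
    rw [mem_tV S s hs] at h2
    rw [hs] at h3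
    have h4 : cl p.2 = n := by
      have := h1.2
      by_contra h5
      exact h2 ⟨h1.1, by omega⟩
    rcases h3 with h3 | h3
    · exact absurd h1.1 h3.1
    · rw [← h4]; exact h3.2
  · intro hn
    obtain ⟨y, -, hy⟩ := cl_surj n
    refine ⟨(0, y), ⟨(mem_tV S s hs _ _).2 ⟨rfl, ?_⟩, ?_⟩, ?_⟩
    · change cl y < n + 1
      omega
    · change (0, y) ∉ ev S (tV s n)
      rw [mem_tV S s hs]
      rintro ⟨-, h⟩
      change cl y < n at h
      omega
    · rw [hs]
      right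
      refine ⟨rfl, ?_⟩
      change cl y ∈ A
      rw [hy]
      exact hn

end evaluation

theorem lower {k : ℕ} (hk : 1 ≤ k) : Cardinal.continuum ≤ Cardinal.mk (Classes k) := by
  classical
  let i0 : Fin k := ⟨0, hk⟩
  let f : Set ℕ → Classes k := fun A => Quot.mk _ ⟨gen fun _ => SA A, fun _ => SA A, rfl⟩
  -- the fibers are countable
  have hfib : ∀ c : Classes k, Cardinal.mk {A : Set ℕ // f A = c} ≤ Cardinal.aleph0 := by
    intro c
    by_cases hc : ∃ A0, f A0 = c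
    · obtain ⟨A0, rfl⟩ := hc
      have hcount : (gen fun _ : Fin k => SA A0).Countable := by
        rw [gen_eq]; exact Set.countable_range _
      have hsub : {A : Set ℕ | f A = f A0} ⊆
          (fun T : Set Plane => {n : ℕ | (ev (fun _ : Fin k => T) (tE (.var i0) n)).Nonempty}) ''
            (gen fun _ : Fin k => SA A0) := by
        intro A hA
        obtain ⟨φ, hφ⟩ := (mk_eq_iff _ _).1 hA
        have hφ' : IsIso (gen fun _ : Fin k => SA A) (gen fun _ : Fin k => SA A0) φ := hφ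
        refine ⟨φ (SA A), hφ'.bij.mapsTo (gen_self (fun _ : Fin k => SA A) i0), ?_⟩
        ext n
        have h1 := hφ'.map_ev (gen_alg _) (gen_self _) (tE (.var i0) n)
        have h2 := tE_iff (fun _ : Fin k => SA A) (.var i0) (A := A) rfl n
        rw [← h2]
        change (ev (fun _ : Fin k => φ (SA A)) (tE (.var i0) n)).Nonempty ↔ _
        have h3 : (fun _ : Fin k => φ (SA A)) = fun i => φ ((fun _ : Fin k => SA A) i) := rfl
        rw [h3, ← h1, Set.nonempty_iff_ne_empty, Set.nonempty_iff_ne_empty]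
        refine not_congr ?_
        have hmem : ev (fun _ : Fin k => SA A) (tE (.var i0) n) ∈ gen fun _ : Fin k => SA A :=
          (gen_alg _).ev_mem (gen_self _) _
        have hempty : (∅ : Set Plane) ∈ gen fun _ : Fin k => SA A := by
          rw [← Set.compl_univ]
          exact (gen_alg _).compl _ ((gen_alg _).univ_mem hmem)
        constructor
        · intro h4
          refine hφ'.bij.injOn hmem hempty ?_
          rw [h4, hφ'.map_empty (gen_alg _) hmem]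
        · intro h4
          rw [h4, hφ'.map_empty (gen_alg _) hmem]
      exact Cardinal.mk_le_aleph0_iff.2 ((hcount.image _).mono hsub).to_subtype
    · have : IsEmpty {A : Set ℕ // f A = c} := ⟨fun A => hc ⟨A.1, A.2⟩⟩
      simp
  have h1 : Cardinal.mk (Set ℕ) = Cardinal.mk (Σ c : Classes k, {A : Set ℕ // f A = c}) :=
    Cardinal.mk_congr (Equiv.sigmaFiberEquiv f).symm
  have h2 : Cardinal.mk (Set ℕ) ≤ Cardinal.mk (Classes k) * Cardinal.aleph0 := by
    rw [h1, Cardinal.mk_sigma]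
    refine (Cardinal.sum_le_sum _ _ hfib).trans ?_
    rw [Cardinal.sum_const']
  rw [Cardinal.mk_set, Cardinal.mk_nat, Cardinal.two_power_aleph0] at h2
  by_contra h3
  push Not at h3
  have h4 : Cardinal.mk (Classes k) * Cardinal.aleph0 < Cardinal.continuum :=
    Cardinal.mul_lt_of_lt Cardinal.aleph0_le_continuum h3 Cardinal.aleph0_lt_continuum
  exact absurd h2 (not_le_of_gt h4)

/-- For each positive integer `k` there are exactly `2 ^ ℵ₀` isomorphism classes of projective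
algebras generated by `k` subsets of the plane. -/
theorem result : ∀ k : ℕ, 1 ≤ k → Cardinal.mk (Classes k) = Cardinal.continuum :=
  fun k hk => le_antisymm (upper k) (lower hk)

end Pool.Agent.Results.MP_71be7b_lc.ContinuumManyTypes
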